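import Pool.Agent.MP_542436_nt.Abc.Defs
import Pool.Agent.MP_74e98a_nt.H25.Div

set_option autoImplicit false

namespace Pool.Agent.MP_542436_nt.H13

open Finset Pool.Agent.MP_542436_nt.Abc

/-- The merged factors. -/
def phi {n m : ℕ} (ex : Fin 3 → Fin n → ℕ) (q : Fin 3 → Fin m → ℕ) (lab : Fin 3 → Fin n → Fin m)
    (u : Fin 3 → Fin n → ℕ) : Fin 3 → Fin m → ℕ :=
  fun j g => ∏ i, if lab j i = g then u j i ^ (ex j i / q j g) else 1

theorem phi_pow {n m : ℕ} {ex : Fin 3 → Fin n → ℕ} {q : Fin 3 → Fin m → ℕ}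
    {lab : Fin 3 → Fin n → Fin m} (hd : ∀ j i, q j (lab j i) ∣ ex j i) (u : Fin 3 → Fin n → ℕ)
    (j : Fin 3) (g : Fin m) :
    phi ex q lab u j g ^ q j g = ∏ i, if lab j i = g then u j i ^ ex j i else 1 := by
  unfold phi
  rw [← Finset.prod_pow]
  refine Finset.prod_congr rfl fun i _ => ?_
  split_ifs with h
  · subst h
    rw [← pow_mul, Nat.div_mul_cancel (hd j i)]
  · simp

theorem nm_phi {n m : ℕ} {ex : Fin 3 → Fin n → ℕ} {q : Fin 3 → Fin m → ℕ}
    {lab : Fin 3 → Fin n → Fin m} (hd : ∀ j i, q j (lab j i) ∣ ex j i) (u : Fin 3 → Fin n → ℕ)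
    (j : Fin 3) : nm q (phi ex q lab u) j = nm ex u j := by
  unfold nm
  simp only [phi_pow hd]
  rw [Finset.prod_comm]
  refine Finset.prod_congr rfl fun i _ => ?_
  simp

theorem sum_agg {n m : ℕ} (lab : Fin 3 → Fin n → Fin m) (f : Fin 3 → Fin n → ℝ) (j : Fin 3) :
    ∑ g, agg lab f j g = ∑ i, f j i := by
  unfold agg
  rw [Finset.sum_comm]
  refine Finset.sum_congr rfl fun i _ => ?_
  simp

theorem divB_mono {cap : ℕ} {Q Q' : ℝ} (h : Q ≤ Q') (hd : DivB cap Q) : DivB cap Q' :=
  fun m hm => (hd m hm).trans h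

theorem detB_mono {cap : ℕ} {Q Q' : ℝ} (h : Q ≤ Q') (hd : DetB cap Q) : DetB cap Q' := by
  intro ρ hh e T A h1 h2 h3 h4 h5 h6 h7 h8 h9
  refine (hd ρ hh e T A h1 h2 h3 h4 h5 h6 h7 h8 h9).trans ?_
  exact mul_le_mul_of_nonneg_right h (Real.rpow_nonneg (by linarith) _)

theorem red : RedStmt := by
  classical
  intro n m ex q lab S e r s L E cap hex _ hd G
  have hE := G.hE
  have hn : (0 : ℝ) ≤ n := Nat.cast_nonneg n
  have hEE : E ≤ (n + 1) * E := by nlinarith
  refine ⟨S.image (phi ex q lab), ⟨G.he, by linarith, ?_, ?_, ?_, ?_, ?_, ?_, ?_, ?_, ?_, ?_, ?_⟩,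
    ?_⟩
  · intro u' hu' j g
    obtain ⟨u, hu, rfl⟩ := mem_image.1 hu'
    refine Finset.prod_pos fun i _ => ?_
    split_ifs
    · exact pow_pos (G.pos u hu j i) _
    · exact one_pos
  · intro u' hu'
    obtain ⟨u, hu, rfl⟩ := mem_image.1 hu'
    simp only [nm_phi hd]
    exact G.eqn u hu
  · intro u' hu' j l hjl
    obtain ⟨u, hu, rfl⟩ := mem_image.1 hu'
    simp only [nm_phi hd]
    exact G.cop u hu j l hjl
  · intro u' hu' j
    obtain ⟨u, hu, rfl⟩ := mem_image.1 hu'
    rw [nm_phi hd]
    exact G.le_cap u hu j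
  · intro j g
    set T : Fin n → Finset ℕ := fun i => if lab j i = g then S.image (fun u => u j i) else {1}
      with hT
    have hsub : (S.image (phi ex q lab)).image (fun u => u j g) ⊆
        (Fintype.piFinset T).image
          (fun v : Fin n → ℕ => ∏ i, if lab j i = g then v i ^ (ex j i / q j g) else 1) := by
      intro x hx
      obtain ⟨u', hu', rfl⟩ := mem_image.1 hx
      obtain ⟨u, hu, rfl⟩ := mem_image.1 hu'
      refine mem_image.2 ⟨fun i => if lab j i = g then u j i else 1, ?_, ?_⟩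
      · rw [Fintype.mem_piFinset]
        intro i
        simp only [hT]
        split_ifs
        · exact mem_image.2 ⟨u, hu, rfl⟩
        · exact mem_singleton_self _
      · unfold phi
        refine Finset.prod_congr rfl fun i _ => ?_
        by_cases h : lab j i = g <;> simp [h]
    have h1 := (card_le_card hsub).trans card_image_le
    rw [Fintype.card_piFinset] at h1
    have h2 : (((S.image (phi ex q lab)).image (fun u => u j g)).card : ℝ) ≤
        ∏ i, ((T i).card : ℝ) := by exact_mod_cast h1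
    refine h2.trans ?_
    have h3 : ∏ i, ((T i).card : ℝ) ≤
        ∏ i, Real.exp ((if lab j i = g then r j i else 0) + E) := by
      refine Finset.prod_le_prod (fun i _ => Nat.cast_nonneg _) fun i _ => ?_
      simp only [hT]
      split_ifs
      · exact G.card j i
      · simp only [card_singleton, Nat.cast_one, zero_add]
        exact Real.one_le_exp (by linarith)
    refine h3.trans ?_
    rw [← Real.exp_sum, Finset.sum_add_distrib]
    refine Real.exp_le_exp.2 ?_
    simp only [agg, sum_const, card_univ, Fintype.card_fin, nsmul_eq_mul]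
    nlinarith
  · intro u' hu' j g
    obtain ⟨u, hu, rfl⟩ := mem_image.1 hu'
    have h1 : (q j g : ℝ) * Real.log (phi ex q lab u j g) =
        ∑ i, if lab j i = g then (ex j i : ℝ) * Real.log (u j i) else 0 := by
      rw [← Real.log_pow, ← Nat.cast_pow, phi_pow hd, Nat.cast_prod, Real.log_prod]
      · refine Finset.sum_congr rfl fun i _ => ?_
        split_ifs
        · rw [Nat.cast_pow, Real.log_pow]
        · simp
      · intro i _
        have := G.pos u hu j i
        split_ifs
        · positivity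
        · simp
    rw [h1, agg, ← Finset.sum_sub_distrib]
    refine (Finset.abs_sum_le_sum_abs _ _).trans ?_
    have h2 : ∑ i : Fin n, |(if lab j i = g then (ex j i : ℝ) * Real.log (u j i) else 0) -
        (if lab j i = g then s j i else 0)| ≤ ∑ _i : Fin n, E := by
      refine Finset.sum_le_sum fun i _ => ?_
      split_ifs
      · exact G.size u hu j i
      · simp only [sub_zero, abs_zero]
        linarith
    refine h2.trans ?_
    simp only [sum_const, card_univ, Fintype.card_fin, nsmul_eq_mul]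
    nlinarith
  · rw [sum_agg]
    exact G.s0
  · rw [sum_agg]
    exact G.s1
  · rw [sum_agg]
    exact G.s2
  · exact divB_mono (Real.exp_le_exp.2 hEE) G.div
  · exact detB_mono (Real.exp_le_exp.2 hEE) G.det
  · have h0 := Finset.card_eq_sum_card_image (phi ex q lab) S
    have h1 : (S.card : ℝ) = ∑ u' ∈ S.image (phi ex q lab),
        ((S.filter (fun u => phi ex q lab u = u')).card : ℝ) := by exact_mod_cast h0
    rw [h1, mul_comm, ← nsmul_eq_mul, ← Finset.sum_const]
    refine Finset.sum_le_sum fun u' hu' => ?_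
    obtain ⟨u0, hu0, rfl⟩ := mem_image.1 hu'
    have hpos : ∀ j, 0 < nm ex u0 j := fun j =>
      Finset.prod_pos fun i _ => pow_pos (G.pos u0 hu0 j i) _
    have hsub : S.filter (fun u => phi ex q lab u = phi ex q lab u0) ⊆
        Fintype.piFinset (fun j : Fin 3 =>
          Fintype.piFinset (fun _ : Fin n => (nm ex u0 j).divisors)) := by
      intro u hu
      obtain ⟨_, hu2⟩ := mem_filter.1 hu
      rw [Fintype.mem_piFinset]
      intro j
      rw [Fintype.mem_piFinset]
      intro i
      refine Nat.mem_divisors.2 ⟨?_, (hpos j).ne'⟩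
      rw [← nm_phi hd u0, ← hu2, nm_phi hd]
      exact (dvd_pow_self _ (hex j i).ne').trans (Finset.dvd_prod_of_mem _ (mem_univ i))
    have h2 := card_le_card hsub
    simp only [Fintype.card_piFinset] at h2
    have h3 : ((S.filter (fun u => phi ex q lab u = phi ex q lab u0)).card : ℝ) ≤
        ∏ j : Fin 3, ∏ _i : Fin n, ((nm ex u0 j).divisors.card : ℝ) := by exact_mod_cast h2
    refine h3.trans ?_
    have h4 : ∏ j : Fin 3, ∏ _i : Fin n, ((nm ex u0 j).divisors.card : ℝ) ≤
        ∏ _j : Fin 3, ∏ _i : Fin n, Real.exp E := by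
      refine Finset.prod_le_prod (fun j _ => Finset.prod_nonneg fun i _ => Nat.cast_nonneg _)
        fun j _ => Finset.prod_le_prod (fun i _ => Nat.cast_nonneg _) fun i _ => ?_
      refine G.div _ ((G.le_cap u0 hu0 j).trans ?_)
      exact Nat.le_self_pow (by norm_num) _
    refine h4.trans (le_of_eq ?_)
    simp only [prod_const, card_univ, Fintype.card_fin, ← Real.exp_nat_mul]
    congr 1
    push_cast
    ring

theorem step {m : ℕ} (hR : RedStmt) {S : Finset (Fin 3 → Fin 7 → ℕ)} {e : Fin 3 → ℤ}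
    {r s : Fin 3 → Fin 7 → ℝ} {L E : ℝ} {X : ℕ} (G : Good (fun _ => ex1) S e r s L E X)
    (hS : 0 < S.card) (q : Fin 3 → Fin m → ℕ) (lab : Fin 3 → Fin 7 → Fin m)
    (hq : ∀ j g, 0 < q j g) (hd : ∀ j i, q j (lab j i) ∣ ex1 i) (B : ℝ)
    (hB : ∀ (S' : Finset (Fin 3 → Fin m → ℕ)) (E' : ℝ),
      Good q S' e (agg lab r) (agg lab s) L E' X → (S'.card : ℝ) ≤ Real.exp (B + 50 * E')) :
    Real.log S.card - 421 * E ≤ B := by
  obtain ⟨S', G', hc⟩ := hR 7 m (fun _ => ex1) q lab S e r s L E X
    (fun _ i => by fin_cases i <;> simp [ex1]) hq hd G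
  have h1 := hB S' _ G'
  have h2 : (S.card : ℝ) ≤ Real.exp (B + 421 * E) := by
    refine hc.trans ((mul_le_mul_of_nonneg_left h1 (Real.exp_pos _).le).trans (le_of_eq ?_))
    rw [← Real.exp_add]
    congr 1
    push_cast
    ring
  have h3 := (Real.log_le_iff_le_exp (by exact_mod_cast hS)).2 h2
  linarith

theorem glue : GlueStmt := by
  intro θ hθ hDet hR hH hBB hM hS hLP ε hε
  have hε' : 0 < ε / 500 := by positivity
  obtain ⟨C1, _, hC1⟩ := hDet (ε / 500) hε'
  obtain ⟨C2, _, hC2⟩ := hS (ε / 500) hε'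
  obtain ⟨C3, h3, hC3⟩ := Pool.Agent.MP_74e98a_nt.H25.divisor_bound (ε / 500 / 4) (by positivity)
  set C : ℝ := max C1 (max C2 C3) with hC
  have c1 : C1 ≤ C := le_max_left _ _
  have c2 : C2 ≤ C := (le_max_left _ _).trans (le_max_right _ _)
  have c3 : C3 ≤ C := (le_max_right _ _).trans (le_max_right _ _)
  have c0 : 0 < C := by linarith
  refine ⟨C ^ 422, fun X hX => ?_⟩
  have hX1 : (1 : ℝ) ≤ X := by exact_mod_cast hX
  have hX0 : (0 : ℝ) < X := by linarith
  have hp : (0 : ℝ) < (X : ℝ) ^ (ε / 500) := Real.rpow_pos_of_pos hX0 _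
  set E : ℝ := Real.log (C * (X : ℝ) ^ (ε / 500)) with hE
  have hexp : Real.exp E = C * (X : ℝ) ^ (ε / 500) := Real.exp_log (by positivity)
  have hdiv : DivB X (Real.exp E) := by
    intro m hm
    refine (hC3 m).trans ?_
    rw [hexp]
    have h4 : (m : ℝ) ≤ (X : ℝ) ^ (4 : ℝ) := by
      rw [show (4 : ℝ) = ((4 : ℕ) : ℝ) by norm_num, Real.rpow_natCast]
      exact_mod_cast hm
    have h5 : (m : ℝ) ^ (ε / 500 / 4) ≤ (X : ℝ) ^ (ε / 500) := by
      refine (Real.rpow_le_rpow (Nat.cast_nonneg m) h4 (by positivity)).trans (le_of_eq ?_)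
      rw [← Real.rpow_mul hX0.le]
      congr 1
      ring
    exact mul_le_mul c3 h5 (Real.rpow_nonneg (Nat.cast_nonneg m) _) c0.le
  have hdet : DetB X (Real.exp E) := by
    refine detB_mono ?_ (hC1 X hX)
    rw [hexp]
    exact mul_le_mul_of_nonneg_right c1 hp.le
  obtain ⟨S, e, r, s, L, G, F, hL, hT⟩ := hC2 X E hX
    (by rw [hexp]; exact mul_le_mul_of_nonneg_right c2 hp.le) hdiv hdet
  rcases Nat.eq_zero_or_pos S.card with h0 | hpos
  · rw [h0] at hT
    simp only [Nat.cast_zero, mul_zero] at hT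
    exact hT.trans (by positivity)
  have hν := hLP r s L (Real.log S.card - 421 * E) F ?_ ?_ ?_
  · have h6 : Real.log S.card ≤ θ * Real.log X + 421 * E := by
      have := mul_le_mul_of_nonneg_left hL hθ
      linarith
    have h7 : (S.card : ℝ) ≤ Real.exp (θ * Real.log X + 421 * E) :=
      (Real.log_le_iff_le_exp (by exact_mod_cast hpos)).1 h6
    have h8 : Real.exp E * Real.exp (θ * Real.log X + 421 * E) =
        C ^ 422 * (X : ℝ) ^ (θ + 422 * (ε / 500)) := by
      have h9 : Real.exp E * Real.exp (θ * Real.log X + 421 * E) =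
          Real.exp E ^ 422 * Real.exp (θ * Real.log X) := by
        rw [← Real.exp_nat_mul, ← Real.exp_add, ← Real.exp_add]
        congr 1
        push_cast
        ring
      rw [h9, hexp, mul_pow, Real.rpow_add hX0, Real.rpow_def_of_pos hX0 θ,
        ← Real.rpow_natCast ((X : ℝ) ^ (ε / 500)), ← Real.rpow_mul hX0.le, mul_comm θ,
        mul_comm (ε / 500)]
      push_cast
      ring
    refine hT.trans ((mul_le_mul_of_nonneg_left h7 (Real.exp_pos _).le).trans ?_)
    rw [h8]
    refine mul_le_mul_of_nonneg_left (Real.rpow_le_rpow_of_exponent_le hX1 (by linarith)) ?_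
    positivity
  · intro k p lab hp1 hp6 hl
    refine step hR G hpos (fun j g => if j ≠ k ∧ g = 0 then p else 1) lab ?_ ?_ _ ?_
    · intro j g
      split_ifs <;> omega
    · intro j i
      split_ifs with h
      · exact hl j i h.1 h.2
      · exact one_dvd _
    · intro S' E' G'
      exact hH k p S' e _ _ L E' X hp1 hp6 G'
  · intro k j p ρ lab hjk hp1 hp6 hρ2 hρ6 hl1 hl2
    refine step hR G hpos
      (fun l g => if l = j ∧ g = 0 then p else if l = k ∧ g = 0 then ρ else 1) lab ?_ ?_ _ ?_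
    · intro l g
      split_ifs <;> omega
    · intro l i
      split_ifs with h h'
      · exact hl1 i (h.1 ▸ h.2)
      · exact hl2 i (h'.1 ▸ h'.2)
      · exact one_dvd _
    · intro S' E' G'
      exact hBB k j p ρ S' e _ _ L E' X hjk hp1 hp6 hρ2 hρ6 G'
  · intro k p a b lab hp1 hp6 hp4 hl
    refine step hR G hpos (fun j g => if j = k then 1 else p g) lab ?_ ?_ _ ?_
    · intro j g
      have := hp1 g
      split_ifs <;> omega
    · intro j i
      split_ifs with h
      · exact one_dvd _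
      · exact hl j i h
    · intro S' E' G'
      exact hM k p a b S' e _ _ L E' X hp1 hp6 hp4 G'

end Pool.Agent.MP_542436_nt.H13
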